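import Pool.Agent.Helper37.BP.SysDefs
import Pool.Graph.R_seed8.BAPp.Khin

/-! Part SC of the BAP project: the weak `l_q` bound. -/

namespace Pool.Agent.Helper47.BAP

open Pool.Agent.BAPp (sgn)
open Pool.Agent.Helper37.BP

theorem ev_ne_iff (t : Tree) (k : ℕ) (h : Sg k) (g : Sg k × (Sg k → Bool)) :
    ev t k h ⟨k, g⟩ ≠ 0 ↔ g.1 ∈ t.A k h := by
  unfold ev
  rw [lev_same]
  split_ifs with h1
  · simp only [ne_eq, h1, iff_true]
    cases g.2 h <;> simp [sgn]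
  · simp [h1]

theorem ev_level (t : Tree) (k : ℕ) (h : Sg k) (γ : Gam) (hne : ev t k h γ ≠ 0) : γ.1 = k := by
  by_contra hk
  exact hne (lev_ne _ _ _ hk)

theorem abs_ev_le (t : Tree) (k : ℕ) (h : Sg k) (γ : Gam) : |ev t k h γ| ≤ 1 := by
  unfold ev
  by_cases hk : γ.1 = k
  · obtain ⟨k', g⟩ := γ
    simp only at hk
    subst hk
    rw [lev_same]
    split_ifs
    · exact (Pool.Agent.BAPp.Khin.abs_sgn _).le
    · simp
  · rw [lev_ne _ _ _ hk]; simp

theorem ev_ne_of_mem (t : Tree) (k : ℕ) (h h' : Sg k) (γ : Gam) (hh : h' ∈ t.A k h)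
    (hne : ev t k h' γ ≠ 0) : ev t k h γ ≠ 0 := by
  have hk := ev_level t k h' γ hne
  obtain ⟨k', g⟩ := γ
  simp only at hk
  subst hk
  rw [ev_ne_iff] at hne ⊢
  rwa [t.A_eq k' h h' hh] at hne

open Classical in
/-- the nodes of level `k` whose vector does not vanish at `γ` -/
noncomputable def NN (t : Tree) (k : ℕ) (γ : Gam) : Finset (Sg k) :=
  Finset.univ.filter fun h => ev t k h γ ≠ 0

theorem mem_NN (t : Tree) (k : ℕ) (γ : Gam) (h : Sg k) : h ∈ NN t k γ ↔ ev t k h γ ≠ 0 := by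
  simp [NN]

theorem card_NN (t : Tree) (k : ℕ) (γ : Gam) : (NN t k γ).card ≤ t.m k := by
  by_cases hk : γ.1 = k
  · obtain ⟨k', g⟩ := γ
    simp only at hk
    subst hk
    rw [← t.A_card k' g.1]
    refine Finset.card_le_card fun h hh => ?_
    rw [mem_NN, ev_ne_iff] at hh
    rw [t.A_eq k' h g.1 hh]
    exact t.A_self k' h
  · have : NN t k γ = ∅ := by
      refine Finset.eq_empty_of_forall_notMem fun h hh => ?_
      rw [mem_NN] at hh
      exact hk (ev_level t k h γ hh)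
    rw [this]; simp

theorem abs_yy_le (t : Tree) (n : ℕ) (j : Sg (n + 2)) (γ : Gam) : |yy t n j γ| ≤ 12 := by
  have hs : ∀ b, |sgn b| = 1 := Pool.Agent.BAPp.Khin.abs_sgn
  have hz : ∀ (n : ℕ) (i : Sg n), |zz t n i γ| ≤ 6 := by
    intro n i
    unfold zz
    have h1 : |∑ c, sgn c * ev t (n + 1) (ch i c) γ| ≤ 2 := by
      refine (Finset.abs_sum_le_sum_abs _ _).trans ?_
      calc ∑ c : Bool, |sgn c * ev t (n + 1) (ch i c) γ| ≤ ∑ c : Bool, (1 : ℝ) := by
            refine Finset.sum_le_sum fun c _ => ?_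
            rw [abs_mul, hs, one_mul]
            exact abs_ev_le _ _ _ _
        _ = 2 := by simp
    have h2 : |∑ c, ∑ c', ev t (n + 2) (ch (ch i c) c') γ| ≤ 4 := by
      refine (Finset.abs_sum_le_sum_abs _ _).trans ?_
      calc ∑ c : Bool, |∑ c', ev t (n + 2) (ch (ch i c) c') γ| ≤ ∑ c : Bool, (2 : ℝ) := by
            refine Finset.sum_le_sum fun c _ => ?_
            refine (Finset.abs_sum_le_sum_abs _ _).trans ?_
            calc ∑ c' : Bool, |ev t (n + 2) (ch (ch i c) c') γ| ≤ ∑ c' : Bool, (1 : ℝ) :=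
                  Finset.sum_le_sum fun c' _ => abs_ev_le _ _ _ _
              _ = 2 := by simp
        _ = 4 := by simp; norm_num
    refine (abs_add_le _ _).trans ?_
    linarith
  unfold yy
  refine (abs_sub _ _).trans ?_
  rw [abs_mul, hs, one_mul]
  have a1 := hz (n + 1) (pr j)
  have a2 := hz n (pr (pr j))
  linarith

theorem yy_ne (t : Tree) (n : ℕ) (h : Sg n) (c₁ c₂ : Bool) (γ : Gam)
    (hne : yy t n (ch (ch h c₁) c₂) γ ≠ 0) :
    (∃ c, ev t (n + 1) (ch h c) γ ≠ 0) ∨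
    (∃ c c', ¬ (c = c₁ ∧ c' = c₂) ∧ ev t (n + 2) (ch (ch h c) c') γ ≠ 0) ∨
    (∃ c c', ev t (n + 3) (ch (ch (ch h c₁) c) c') γ ≠ 0) := by
  by_contra hcon
  simp only [not_or, not_exists, not_and, not_not] at hcon
  obtain ⟨h1, h2, h3⟩ := hcon
  apply hne
  have k1 := h1 true
  have k2 := h1 false
  have k3 := h3 true true
  have k4 := h3 true false
  have k5 := h3 false true
  have k6 := h3 false false
  have m1 := h2 true true
  have m2 := h2 true false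
  have m3 := h2 false true
  have m4 := h2 false false
  unfold yy zz
  simp only [pr_ch, ch_last, Fintype.sum_bool]
  cases c₁ <;> cases c₂ <;> simp_all [sgn]

theorem mem_J (t : Tree) (n : ℕ) (j j0 : Sg (n + 2)) (γ : Gam) (hj : j ∈ t.B (n + 2) j0)
    (hne : yy t n j γ ≠ 0) :
    j0 ∈ (((NN t (n + 1) γ) ×ˢ (Finset.univ : Finset (Bool × Bool))).image
        fun x => ch (ch (pr x.1) x.2.1) x.2.2) ∪
      ((((NN t (n + 2) γ) ×ˢ (Finset.univ : Finset (Bool × Bool))).image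
        fun x => ch (ch (pr (pr x.1)) x.2.1) x.2.2) ∪
      (((NN t (n + 3) γ) ×ˢ (Finset.univ : Finset Bool)).image
        fun x => ch (pr (pr x.1)) x.2)) := by
  obtain ⟨h', c₁', c₂', rfl⟩ : ∃ h' c₁' c₂', j = ch (ch h' c₁') c₂' :=
    ⟨pr (pr j), _, _, by rw [ch_pr, ch_pr]⟩
  obtain ⟨h, c₁, c₂, rfl⟩ : ∃ h c₁ c₂, j0 = ch (ch h c₁) c₂ :=
    ⟨pr (pr j0), _, _, by rw [ch_pr, ch_pr]⟩
  obtain ⟨r1, r2, r3, r4, r5⟩ := t.rel n h h' c₁ c₂ c₁' c₂' hj
  subst r1 r2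
  simp only [Finset.mem_union, Finset.mem_image, Finset.mem_product, Finset.mem_univ, and_true,
    mem_NN]
  rcases yy_ne t n h' c₁' c₂' γ hne with ⟨c, hc⟩ | ⟨c, c', hcc, hc⟩ | ⟨c, c', hc⟩
  · left
    refine ⟨(ch h c, (c₁', c₂')), ev_ne_of_mem t _ _ _ γ (r3 c) hc, ?_⟩
    simp
  · right; left
    refine ⟨(ch (ch h c) c', (c₁', c₂')), ev_ne_of_mem t _ _ _ γ (r4 c c' hcc) hc, ?_⟩
    simp
  · right; right
    refine ⟨(ch (ch (ch h c₁') c) c', c₂'), ev_ne_of_mem t _ _ _ γ (r5 c c') hc, ?_⟩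
    simp

theorem inner_bound (t : Tree) (q : ℝ) (hq1 : 1 ≤ q) (hq2 : q ≤ 2) (n : ℕ) (γ : Gam)
    (j0 : Sg (n + 2)) :
    ∑ θ : Sg (n + 2) → Bool, |∑ j ∈ t.B (n + 2) j0, sgn (θ j) * yy t n j γ| ^ q ≤
      2 ^ (2 ^ (n + 2)) * (2304 * (t.b (n + 2) : ℝ) ^ (q / 2)) := by
  set a : Sg (n + 2) → ℝ := fun j => if j ∈ t.B (n + 2) j0 then yy t n j γ else 0 with ha
  have h1 : ∀ θ : Sg (n + 2) → Bool, ∑ j ∈ t.B (n + 2) j0, sgn (θ j) * yy t n j γ =
      ∑ j, sgn (θ j) * a j := by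
    intro θ
    rw [← Finset.sum_subset (Finset.subset_univ (t.B (n + 2) j0))]
    · exact Finset.sum_congr rfl fun j hj => by rw [ha]; simp [hj]
    · intro j _ hj; rw [ha]; simp [hj]
  have h2 := Pool.Agent.BAPp.Khin.khinchine a q hq1
  have hcard : Fintype.card (Sg (n + 2)) = 2 ^ (n + 2) := by simp
  rw [hcard] at h2
  simp only [h1]
  refine h2.trans ?_
  refine mul_le_mul_of_nonneg_left ?_ (by positivity)
  have hq0 : 0 < q := by linarith
  have h3 : ∑ i, a i ^ 2 ≤ 144 * (t.b (n + 2) : ℝ) := by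
    calc ∑ i, a i ^ 2 = ∑ i ∈ t.B (n + 2) j0, yy t n i γ ^ 2 := by
          rw [← Finset.sum_subset (Finset.subset_univ (t.B (n + 2) j0))]
          · exact Finset.sum_congr rfl fun j hj => by rw [ha]; simp [hj]
          · intro j _ hj; rw [ha]; simp [hj]
      _ ≤ ∑ i ∈ t.B (n + 2) j0, (144 : ℝ) := by
          refine Finset.sum_le_sum fun i _ => ?_
          have := abs_yy_le t n i γ
          rw [← sq_abs]
          nlinarith [abs_nonneg (yy t n i γ)]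
      _ = 144 * (t.b (n + 2) : ℝ) := by
          rw [Finset.sum_const, t.B_card, nsmul_eq_mul, mul_comm]
  have h4 : (∑ i, a i ^ 2) ^ (q / 2) ≤ 144 * (t.b (n + 2) : ℝ) ^ (q / 2) := by
    calc (∑ i, a i ^ 2) ^ (q / 2) ≤ (144 * (t.b (n + 2) : ℝ)) ^ (q / 2) :=
          Real.rpow_le_rpow (Finset.sum_nonneg fun i _ => sq_nonneg _) h3 (by positivity)
      _ = (144 : ℝ) ^ (q / 2) * (t.b (n + 2) : ℝ) ^ (q / 2) :=
          Real.mul_rpow (by norm_num) (by positivity)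
      _ ≤ 144 * (t.b (n + 2) : ℝ) ^ (q / 2) := by
          refine mul_le_mul_of_nonneg_right ?_ (by positivity)
          calc (144 : ℝ) ^ (q / 2) ≤ (144 : ℝ) ^ (1 : ℝ) :=
                Real.rpow_le_rpow_of_exponent_le (by norm_num) (by linarith)
            _ = 144 := Real.rpow_one _
  have h5 : q ^ q ≤ 4 := by
    calc q ^ q ≤ (2 : ℝ) ^ q := Real.rpow_le_rpow hq0.le hq2 hq0.le
      _ ≤ (2 : ℝ) ^ (2 : ℝ) := Real.rpow_le_rpow_of_exponent_le (by norm_num) hq2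
      _ = 4 := by norm_num
  have h6 : (0 : ℝ) ≤ q ^ q := Real.rpow_nonneg hq0.le _
  have h7 : (0 : ℝ) ≤ (t.b (n + 2) : ℝ) ^ (q / 2) := by positivity
  calc 4 * q ^ q * (∑ i, a i ^ 2) ^ (q / 2) ≤ 4 * 4 * (144 * (t.b (n + 2) : ℝ) ^ (q / 2)) := by
        refine mul_le_mul ?_ h4 (Real.rpow_nonneg (Finset.sum_nonneg fun i _ => sq_nonneg _) _)
          (by norm_num)
        linarith
    _ = 2304 * (t.b (n + 2) : ℝ) ^ (q / 2) := by ring

/-! ### Part SC: the weak `ℓ_q` bound -/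
theorem x_bound (t : Tree) (q : ℝ) (hq1 : 1 ≤ q) (hq2 : q ≤ 2) (n : ℕ) (γ : Gam) :
    ∑ j0 : Sg (n + 2), ∑ θ : Sg (n + 2) → Bool,
      |∑ j ∈ t.B (n + 2) j0, sgn (θ j) * yy t n j γ| ^ q ≤
      2 ^ 24 * 2 ^ (2 ^ (n + 2)) * t.m (n + 2) * (t.b (n + 2) : ℝ) ^ (q / 2) := by
  set J : Finset (Sg (n + 2)) :=
    (((NN t (n + 1) γ) ×ˢ (Finset.univ : Finset (Bool × Bool))).image
        fun x => ch (ch (pr x.1) x.2.1) x.2.2) ∪
      ((((NN t (n + 2) γ) ×ˢ (Finset.univ : Finset (Bool × Bool))).image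
        fun x => ch (ch (pr (pr x.1)) x.2.1) x.2.2) ∪
      (((NN t (n + 3) γ) ×ˢ (Finset.univ : Finset Bool)).image
        fun x => ch (pr (pr x.1)) x.2)) with hJ
  have hcard : J.card ≤ 4104 * t.m (n + 2) := by
    have i1 : (((NN t (n + 1) γ) ×ˢ (Finset.univ : Finset (Bool × Bool))).image
        fun x => ch (ch (pr x.1) x.2.1) x.2.2).card ≤ 4 * t.m (n + 1) := by
      refine Finset.card_image_le.trans ?_
      rw [Finset.card_product]
      have := card_NN t (n + 1) γ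
      simp only [Finset.card_univ, Fintype.card_prod, Fintype.card_bool]
      omega
    have i2 : (((NN t (n + 2) γ) ×ˢ (Finset.univ : Finset (Bool × Bool))).image
        fun x => ch (ch (pr (pr x.1)) x.2.1) x.2.2).card ≤ 4 * t.m (n + 2) := by
      refine Finset.card_image_le.trans ?_
      rw [Finset.card_product]
      have := card_NN t (n + 2) γ
      simp only [Finset.card_univ, Fintype.card_prod, Fintype.card_bool]
      omega
    have i3 : (((NN t (n + 3) γ) ×ˢ (Finset.univ : Finset Bool)).image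
        fun x => ch (pr (pr x.1)) x.2).card ≤ 2 * t.m (n + 3) := by
      refine Finset.card_image_le.trans ?_
      rw [Finset.card_product]
      have := card_NN t (n + 3) γ
      simp only [Finset.card_univ, Fintype.card_bool]
      omega
    have m1 : t.m (n + 1) ≤ t.m (n + 2) := t.m_mono (n + 1)
    have m2 : t.m (n + 3) ≤ 2 ^ 11 * t.m (n + 2) := t.m_le (n + 2)
    have u1 := Finset.card_union_le
      (((NN t (n + 1) γ) ×ˢ (Finset.univ : Finset (Bool × Bool))).image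
        fun x => ch (ch (pr x.1) x.2.1) x.2.2)
      ((((NN t (n + 2) γ) ×ˢ (Finset.univ : Finset (Bool × Bool))).image
        fun x => ch (ch (pr (pr x.1)) x.2.1) x.2.2) ∪
      (((NN t (n + 3) γ) ×ˢ (Finset.univ : Finset Bool)).image
        fun x => ch (pr (pr x.1)) x.2))
    have u2 := Finset.card_union_le
      (((NN t (n + 2) γ) ×ˢ (Finset.univ : Finset (Bool × Bool))).image
        fun x => ch (ch (pr (pr x.1)) x.2.1) x.2.2)
      (((NN t (n + 3) γ) ×ˢ (Finset.univ : Finset Bool)).image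
        fun x => ch (pr (pr x.1)) x.2)
    rw [← hJ] at u1
    omega
  have hzero : ∀ j0 : Sg (n + 2), j0 ∉ J → ∑ θ : Sg (n + 2) → Bool,
      |∑ j ∈ t.B (n + 2) j0, sgn (θ j) * yy t n j γ| ^ q = 0 := by
    intro j0 hj0
    refine Finset.sum_eq_zero fun θ _ => ?_
    have : ∑ j ∈ t.B (n + 2) j0, sgn (θ j) * yy t n j γ = 0 := by
      refine Finset.sum_eq_zero fun j hj => ?_
      by_contra hne
      exact hj0 (mem_J t n j j0 γ hj fun h => hne (by rw [h, mul_zero]))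
    rw [this, abs_zero, Real.zero_rpow (by linarith)]
  have hpos : (0 : ℝ) ≤ 2 ^ (2 ^ (n + 2)) * (2304 * (t.b (n + 2) : ℝ) ^ (q / 2)) := by positivity
  calc ∑ j0 : Sg (n + 2), ∑ θ : Sg (n + 2) → Bool,
      |∑ j ∈ t.B (n + 2) j0, sgn (θ j) * yy t n j γ| ^ q
      = ∑ j0 ∈ J, ∑ θ : Sg (n + 2) → Bool,
      |∑ j ∈ t.B (n + 2) j0, sgn (θ j) * yy t n j γ| ^ q :=
        (Finset.sum_subset (Finset.subset_univ J) fun j0 _ hj0 => hzero j0 hj0).symm
    _ ≤ ∑ j0 ∈ J, (2 ^ (2 ^ (n + 2)) * (2304 * (t.b (n + 2) : ℝ) ^ (q / 2))) :=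
        Finset.sum_le_sum fun j0 _ => inner_bound t q hq1 hq2 n γ j0
    _ = J.card * (2 ^ (2 ^ (n + 2)) * (2304 * (t.b (n + 2) : ℝ) ^ (q / 2))) := by
        rw [Finset.sum_const, nsmul_eq_mul]
    _ ≤ (4104 * t.m (n + 2) : ℝ) * (2 ^ (2 ^ (n + 2)) * (2304 * (t.b (n + 2) : ℝ) ^ (q / 2))) := by
        refine mul_le_mul_of_nonneg_right ?_ hpos
        exact_mod_cast hcard
    _ = 9455616 * (2 ^ (2 ^ (n + 2)) * t.m (n + 2) * (t.b (n + 2) : ℝ) ^ (q / 2)) := by ring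
    _ ≤ 2 ^ 24 * (2 ^ (2 ^ (n + 2)) * t.m (n + 2) * (t.b (n + 2) : ℝ) ^ (q / 2)) := by
        refine mul_le_mul_of_nonneg_right (by norm_num) (by positivity)
    _ = _ := by ring

end Pool.Agent.Helper47.BAP
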